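import Pool.Agent.H60.MAD.Defs

/-!
# Planar graphs without a four-triangle fan have list packing number at most seven
-/

set_option autoImplicit false

namespace Pool.Agent.Results.MP_c3a80b_co.PlanarNoFan

open Pool.Agent.H60.MAD

theorem result {V : Type*} [Finite V] (G : SimpleGraph V) (hP : IsPlanar G) (hF : NoFan G) :
    Packable G 7 ∧ listPackingNumber G ≤ 7 :=
  ⟨packable7 hP hF, Nat.sInf_le ⟨by norm_num, packable7 hP hF⟩⟩

end Pool.Agent.Results.MP_c3a80b_co.PlanarNoFan
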