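import Pool.Agent.H60.MAD.Defs

/-!
# Planar graphs with few triangles at every vertex have list packing number at most six
-/

set_option autoImplicit false

namespace Pool.Agent.Results.MP_c3a80b_co.PlanarSparseTriangles

open Pool.Agent.H60.MAD

/-- Planar graphs in which no two triangles share an edge, or in which every vertex lies in at most two triangles, or (more
generally) in which at most two of the four consecutive pairs of any five neighbours of a vertex are adjacent. -/
theorem result {V : Type*} [Finite V] (G : SimpleGraph V) (hP : IsPlanar G)
    (hT : NoAdjacentTriangles G ∨ TwoTriangles G ∨ FanLE G 2) : Packable G 6 ∧ listPackingNumber G ≤ 6 :=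
  have hF : FanLE G 2 := hT.elim fanLE_of_noAdj (fun h => h.elim fanLE_of_two id)
  ⟨packable6 hP hF, Nat.sInf_le ⟨by norm_num, packable6 hP hF⟩⟩

end Pool.Agent.Results.MP_c3a80b_co.PlanarSparseTriangles
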