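import Pool.Agent.H42.Pack6.Final

set_option autoImplicit false

namespace Pool.Agent.Results.MP_c3a80b_co.TreewidthFour

open Pool.Agent.H42.Pack

/-- Every graph of treewidth at most four (with a finite tree decomposition) has an `L`-packing for
every assignment of lists of six colours, so its list packing number is at most six. -/
theorem result :
    ∀ (V : Type) (G : SimpleGraph V), TreewidthLE G 4 → Packable G 6 ∧ listPackingNumber G ≤ 6 :=
  fun _ _ h => ⟨Pool.Agent.H42.Pack6.packable_six h,
    Nat.sInf_le ⟨by norm_num, Pool.Agent.H42.Pack6.packable_six h⟩⟩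

end Pool.Agent.Results.MP_c3a80b_co.TreewidthFour
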