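import Pool.Agent.H42.Pack.Decomp
import Pool.Agent.H42.Pack.Lower

set_option autoImplicit false

namespace Pool.Agent.Results.MP_c3a80b_co.TreewidthThree

open Pool.Agent.H42.Pack Finset

/-- `G` is (isomorphic to) an Apollonian network, i.e. a planar 3-tree. -/
def IsApollonian {V : Type} (G : SimpleGraph V) : Prop :=
  ∃ (n : ℕ) (H : SimpleGraph ℕ) (F : Finset (Finset ℕ)), Apollonian n H F ∧
    Nonempty (G ≃g toFin n H)

lemma treewidth_iso {V W : Type} [DecidableEq V] {G : SimpleGraph V} {H : SimpleGraph W} {w : ℕ}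
    (e : G ≃g H) (h : TreewidthLE H w) : TreewidthLE G w := by
  obtain ⟨D⟩ := h
  have hmem : ∀ (v : V) (B : Finset W), v ∈ B.image e.symm ↔ e v ∈ B := by
    intro v B
    rw [Finset.mem_image]
    constructor
    · rintro ⟨x, hx, rfl⟩
      simpa using hx
    · intro hx
      exact ⟨e v, hx, by simp⟩
  refine ⟨⟨D.node, D.fin, D.tree, D.isTree, fun i => (D.bag i).image e.symm, ?_, ?_, ?_⟩⟩
  · intro u v huv
    obtain ⟨i, hu, hv⟩ := D.edge (e u) (e v) (e.map_adj_iff.2 huv)
    exact ⟨i, (hmem _ _).2 hu, (hmem _ _).2 hv⟩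
  · intro v
    have h1 : ({i | v ∈ (D.bag i).image e.symm} : Set D.node) = {i | e v ∈ D.bag i} := by
      ext i
      exact hmem v _
    rw [h1]
    exact D.conn (e v)
  · intro i
    exact Finset.card_image_le.trans (D.card_le i)

lemma apollonian_treewidth {V : Type} [DecidableEq V] {G : SimpleGraph V} (h : IsApollonian G) :
    TreewidthLE G 3 := by
  obtain ⟨n, H, F, hA, ⟨e⟩⟩ := h
  exact treewidth_iso e hA.treewidth

/-- Some Apollonian network has list packing number at least five. -/
lemma exists_apollonian : ∃ (n : ℕ) (G : SimpleGraph (Fin n)), IsApollonian G ∧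
    5 ≤ listPackingNumber G := by
  obtain ⟨n, G, F, L, hA, hL, hn, hK, hno⟩ := exists_noPack
  have hle := listPackingNumber_le_of_treewidth (le_refl 3) hA.treewidth
  refine ⟨n, toFin n G, ⟨n, G, F, hA, ⟨SimpleGraph.Iso.refl⟩⟩, ?_⟩
  have hne : {k | 1 ≤ k ∧ Packable (toFin n G) k}.Nonempty :=
    ⟨5, by norm_num, packable_of_treewidth (le_refl 3) hA.treewidth⟩
  have hmem := Nat.sInf_mem hne
  by_contra hcon
  push Not at hcon
  have hk4 : sInf {k | 1 ≤ k ∧ Packable (toFin n G) k} ≤ 4 := by
    unfold listPackingNumber at hcon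
    omega
  generalize sInf {k | 1 ≤ k ∧ Packable (toFin n G) k} = k at hmem hk4
  obtain ⟨hk1, hk⟩ := hmem
  rcases Nat.lt_or_ge k 4 with hk3 | hk3
  · -- at most three colours do not suffice for the four vertices `0, 1, 2, 3`
    obtain ⟨c, hcL, hcA, -⟩ := hk (fun _ => Finset.range k) (fun _ => by simp)
    let i0 : Fin k := ⟨0, hk1⟩
    have hmaps : ∀ a ∈ (univ : Finset (Fin 4)),
        (fun a : Fin 4 => c i0 ⟨a, by omega⟩) a ∈ Finset.range k := fun a _ => hcL _ _
    obtain ⟨a, _, b, _, hab, he⟩ := Finset.exists_ne_map_eq_of_card_lt_of_maps_to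
      (by simpa using hk3) hmaps
    refine hcA i0 ⟨a, by omega⟩ ⟨b, by omega⟩ ?_ he
    exact hK a b a.isLt b.isLt (fun h => hab (Fin.ext h))
  · have hk' : k = 4 := by omega
    subst hk'
    obtain ⟨c, hcL, hcA, hcD⟩ := hk (fun v => L v) (fun v => hL v)
    refine hno (fun v i => if h : v < n then c i ⟨v, h⟩ else i) ⟨?_, ?_⟩
    · intro v hv
      simp only [hv, dif_pos]
      refine ⟨?_, fun i => hcL i ⟨v, hv⟩⟩
      intro i j hij
      by_contra hne'
      exact hcD i j ⟨v, hv⟩ hne' hij
    · intro u v huv i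
      have hlt := hA.adj_lt u v huv
      simp only [hlt.1, hlt.2, dif_pos]
      exact hcA i ⟨u, hlt.1⟩ ⟨v, hlt.2⟩ huv

/-- Apollonian networks have treewidth at most three, and for every class of finite graphs that
contains the Apollonian networks and consists of graphs of treewidth at most three (for example:
the Apollonian networks, the planar graphs of treewidth at most three, or all graphs of treewidth
at most three) the maximum of the list packing number over the class is exactly five. -/
theorem result :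
    (∀ (n : ℕ) (G : SimpleGraph (Fin n)), IsApollonian G → TreewidthLE G 3) ∧
    ∀ C : (n : ℕ) → SimpleGraph (Fin n) → Prop,
      (∀ (n : ℕ) (G : SimpleGraph (Fin n)), IsApollonian G → C n G) →
      (∀ (n : ℕ) (G : SimpleGraph (Fin n)), C n G → TreewidthLE G 3) →
      IsGreatest {m : ℕ | ∃ (n : ℕ) (G : SimpleGraph (Fin n)), C n G ∧ listPackingNumber G = m}
        5 := by
  refine ⟨fun n G h => apollonian_treewidth h, ?_⟩
  intro C h1 h2
  constructor
  · obtain ⟨n, G, hG, h5⟩ := exists_apollonian
    have h3 := listPackingNumber_le_of_treewidth (le_refl 3) (h2 n G (h1 n G hG))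
    exact ⟨n, G, h1 n G hG, by omega⟩
  · rintro m ⟨n, G, hG, rfl⟩
    exact listPackingNumber_le_of_treewidth (le_refl 3) (h2 n G hG)

end Pool.Agent.Results.MP_c3a80b_co.TreewidthThree
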